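import Pool.Agent.H8.TD.Targets

/-!
# Row DGB of the board n3_modules: the degree of the extension of the function fields
-/

set_option autoImplicit false

open MvPolynomial
open Pool.Agent.H12.ZD (pmap v O Res DenseOrbit NoInv)
open Pool.Agent.H18.HIT
open Pool.Agent.H8.ZA (HFam Const NA sz)
open Pool.Agent.H8.TD

namespace Pool.Agent.H72.TD

section

variable (k : Type) [Field k]

/-- the function field of affine 4-space -/
abbrev L4 : Type := FractionRing (Po 4 k)

/-- the coordinates -/
noncomputable def x4 (i : Fin 4) : L4 k := algebraMap (Po 4 k) (L4 k) (X i)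

theorem x4_ne (i : Fin 4) : x4 k i ≠ 0 := by
  unfold x4
  rw [Ne, map_eq_zero_iff _ (IsFractionRing.injective (Po 4 k) (L4 k))]
  exact X_ne_zero i

/-- the quotients of the coordinates -/
noncomputable def jj : Po 3 k →ₐ[k] L4 k := aeval (fun i : Fin 3 => x4 k i.succ / x4 k 0)

/-- the substitution -/
noncomputable def sg : Po 4 k →ₐ[k] L4 k :=
  aeval (Fin.cons (x4 k 0) (fun i : Fin 3 => x4 k i.succ / x4 k 0) : Fin 4 → L4 k)

/-- the inverse substitution -/
noncomputable def rr : Po 4 k →ₐ[k] Po 4 k :=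
  aeval (Fin.cons (X 0) (fun i : Fin 3 => X i.succ * X 0) : Fin 4 → Po 4 k)

theorem sg_claim (q : Po 4 k) : ∃ (N : ℕ) (q' : Po 4 k),
    x4 k 0 ^ N * sg k q = algebraMap (Po 4 k) (L4 k) q' ∧ rr k q' = X 0 ^ N * q := by
  have hr0 : rr k (X 0) = X 0 := by simp [rr]
  induction q using MvPolynomial.induction_on with
  | C a =>
    refine ⟨0, C a, ?_, ?_⟩
    · rw [pow_zero, one_mul, sg, aeval_C]
      exact IsScalarTower.algebraMap_apply k (Po 4 k) (L4 k) a
    · rw [pow_zero, one_mul, rr, aeval_C]
      rfl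
  | add p q hp hq =>
    obtain ⟨N, p', h1, h2⟩ := hp
    obtain ⟨M, q', h3, h4⟩ := hq
    refine ⟨N + M, X 0 ^ M * p' + X 0 ^ N * q', ?_, ?_⟩
    · have h5 : x4 k 0 = algebraMap (Po 4 k) (L4 k) (X 0) := rfl
      rw [map_add (algebraMap (Po 4 k) (L4 k)), map_mul, map_mul, map_pow, map_pow, ← h1, ← h3,
        ← h5, map_add]
      ring
    · rw [map_add, map_mul, map_mul, map_pow, map_pow, hr0, h2, h4]
      ring
  | mul_X p i hp =>
    obtain ⟨N, p', h1, h2⟩ := hp
    refine Fin.cases ?_ (fun j => ?_) i
    · refine ⟨N, p' * X 0, ?_, ?_⟩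
      · rw [map_mul, map_mul, ← h1]
        have : sg k (X 0) = algebraMap (Po 4 k) (L4 k) (X 0) := by simp [sg, x4]
        rw [this]
        ring
      · rw [map_mul, hr0, h2]
        ring
    · refine ⟨N + 1, p' * X j.succ, ?_, ?_⟩
      · rw [map_mul, map_mul, ← h1]
        have h5 : sg k (X j.succ) = x4 k j.succ / x4 k 0 := by simp [sg]
        have h6 : algebraMap (Po 4 k) (L4 k) (X j.succ) = x4 k j.succ := rfl
        rw [h5, h6]
        have := x4_ne k 0
        field_simp
        ring
      · have h5 : rr k (X j.succ) = X j.succ * X 0 := by simp [rr]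
        rw [map_mul, h5, h2]
        ring

theorem sg_inj : Function.Injective (sg k) := by
  rw [injective_iff_map_eq_zero]
  intro q hq
  obtain ⟨N, q', h1, h2⟩ := sg_claim k q
  rw [hq, mul_zero] at h1
  have h3 : q' = 0 := (map_eq_zero_iff _ (IsFractionRing.injective (Po 4 k) (L4 k))).1 h1.symm
  rw [h3, map_zero] at h2
  exact (mul_eq_zero.1 h2.symm).resolve_left (pow_ne_zero _ (X_ne_zero 0))

theorem sg_fin (P : Polynomial (Po 3 k)) :
    sg k ((finSuccEquiv k 3).symm P) = P.eval₂ (jj k).toRingHom (x4 k 0) := by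
  have h1 : ∀ q : Po 4 k, sg k q =
      (finSuccEquiv k 3 q).eval₂ (jj k).toRingHom (x4 k 0) := by
    intro q
    induction q using MvPolynomial.induction_on with
    | C a =>
      have h2 : finSuccEquiv k 3 (C a) = Polynomial.C (C a) := by
        have h3 : finSuccEquiv k 3 (algebraMap k (Po 4 k) a) =
            algebraMap k (Polynomial (Po 3 k)) a := (finSuccEquiv k 3).commutes a
        exact h3
      rw [h2, Polynomial.eval₂_C, sg, aeval_C]
      simp [jj]
    | add p q hp hq => rw [map_add, map_add, hp, hq, Polynomial.eval₂_add]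
    | mul_X p i hp =>
      rw [map_mul, map_mul, hp, Polynomial.eval₂_mul]
      congr 1
      refine Fin.cases ?_ (fun j => ?_) i
      · rw [finSuccEquiv_X_zero, Polynomial.eval₂_X]
        simp [sg]
      · rw [finSuccEquiv_X_succ, Polynomial.eval₂_C]
        simp [sg, jj]
  rw [h1, AlgEquiv.apply_symm_apply]

theorem jj_inj : Function.Injective (jj k) := by
  rw [injective_iff_map_eq_zero]
  intro q hq
  have h1 := sg_fin k (Polynomial.C q)
  rw [Polynomial.eval₂_C] at h1
  have h2 : (jj k).toRingHom q = jj k q := rfl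
  rw [h2, hq] at h1
  have h3 : (finSuccEquiv k 3).symm (Polynomial.C q) = 0 :=
    (injective_iff_map_eq_zero (sg k)).1 (sg_inj k) _ h1
  have h4 : (Polynomial.C q : Polynomial (Po 3 k)) = 0 := by
    rw [← (finSuccEquiv k 3).apply_symm_apply (Polynomial.C q), h3, map_zero]
  exact Polynomial.C_eq_zero.1 h4

/-- the field homomorphism -/
noncomputable def jK : K3 k →ₐ[k] L4 k := IsFractionRing.liftAlgHom (jj_inj k)

theorem jK_alg (q : Po 3 k) : jK k (algebraMap (Po 3 k) (K3 k) q) = jj k q :=
  IsFractionRing.lift_algebraMap (jj_inj k) q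

variable {k}

theorem dgb_scale {ι K : Type} [Field K] [Algebra k K] (P : MvPolynomial ι k)
    (e : ℕ) (hP : P.IsHomogeneous e) (c : K) (x : ι → K) :
    aeval (fun i => c * x i) P = c ^ e * aeval x P := by
  rw [aeval_def, aeval_def, eval₂_eq, eval₂_eq, Finset.mul_sum]
  refine Finset.sum_congr rfl fun m hm => ?_
  have h1 : ∑ i ∈ m.support, m i = e := by
    have h := hP (mem_support_iff.1 hm)
    rw [Finsupp.weight_apply, Finsupp.sum] at h
    simpa using h
  rw [← h1, ← Finset.prod_pow_eq_pow_sum]
  have h2 : ∏ i ∈ m.support, (c * x i) ^ m i = (∏ i ∈ m.support, c ^ m i) *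
      ∏ i ∈ m.support, x i ^ m i := by
    rw [← Finset.prod_mul_distrib]
    exact Finset.prod_congr rfl fun i _ => mul_pow _ _ _
  rw [h2]
  ring

/-- a form in terms of its dehomogenization -/
theorem alg_form (G : Po 4 k) (m : ℕ) (hG : G.IsHomogeneous m) :
    algebraMap (Po 4 k) (L4 k) G = x4 k 0 ^ m * jj k (dh G) := by
  have h1 : jj k (dh G) = aeval (fun i : Fin 4 => x4 k i / x4 k 0) G := by
    have h2 : (jj k).comp (dh (k := k)) = aeval (fun i : Fin 4 => x4 k i / x4 k 0) := by
      apply MvPolynomial.algHom_ext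
      intro i
      refine Fin.cases ?_ (fun j => ?_) i
      · rw [AlgHom.comp_apply, dh, aeval_X, Fin.cons_zero, map_one, aeval_X, div_self (x4_ne k 0)]
      · rw [AlgHom.comp_apply, dh, aeval_X, Fin.cons_succ, jj, aeval_X, aeval_X]
    rw [← h2]
    rfl
  rw [h1, ← dgb_scale G m hG]
  have h3 : (fun i => x4 k 0 * (x4 k i / x4 k 0)) = fun i => x4 k i := by
    funext i
    rw [mul_div_cancel₀ _ (x4_ne k 0)]
  rw [h3]
  have h4 : (IsScalarTower.toAlgHom k (Po 4 k) (L4 k)) = aeval (fun i => x4 k i) := by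
    apply MvPolynomial.algHom_ext
    intro i
    rw [aeval_X]
    rfl
  rw [← h4]
  rfl

end

theorem pf_DGB (hSL1 : T_SL1) : T_DGB := by
  intro k _ _ _ F d e τ θ Φ Δ R hd hF hinj hP hdeg hph
  have hinjL : Function.Injective ((IsScalarTower.toAlgHom k (Po 4 k) (L4 k)).comp
      (aeval F : Po 4 k →ₐ[k] Po 4 k)) := by
    rw [AlgHom.coe_comp]
    exact (IsFractionRing.injective (Po 4 k) (L4 k)).comp hinj
  set τL : L4 k →ₐ[k] L4 k := IsFractionRing.liftAlgHom hinjL with hτL
  have hτLa : ∀ q : Po 4 k, τL (algebraMap (Po 4 k) (L4 k) q) =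
      algebraMap (Po 4 k) (L4 k) (aeval F q) := fun q =>
    IsFractionRing.lift_algebraMap hinjL q
  letI : Algebra (K3 k) (L4 k) := (jK k).toRingHom.toAlgebra
  have halg : ∀ x : K3 k, algebraMap (K3 k) (L4 k) x = jK k x := fun x => rfl
  haveI : IsScalarTower k (K3 k) (L4 k) := IsScalarTower.of_algebraMap_eq fun x => by
    rw [halg, AlgHom.commutes]
  have hF0 : F 0 ≠ 0 := by
    intro h
    have h1 : (aeval F : Po 4 k →ₐ[k] Po 4 k) (X 0) = (aeval F : Po 4 k →ₐ[k] Po 4 k) 0 := by
      rw [aeval_X, h, map_zero]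
    exact X_ne_zero (0 : Fin 4) (hinj h1)
  have hdh0 : jj k (dh (F 0)) ≠ 0 := by
    intro h
    have h1 := alg_form (F 0) d (hF 0)
    rw [h, mul_zero, map_eq_zero_iff _ (IsFractionRing.injective (Po 4 k) (L4 k))] at h1
    exact hF0 h1
  -- transcendence
  have htr : Transcendental (K3 k) (x4 k 0) := by
    letI : Algebra (Po 3 k) (L4 k) := (jj k).toRingHom.toAlgebra
    have halg3 : ∀ x : Po 3 k, algebraMap (Po 3 k) (L4 k) x = jj k x := fun x => rfl
    haveI : IsScalarTower (Po 3 k) (K3 k) (L4 k) := IsScalarTower.of_algebraMap_eq fun x => by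
      rw [halg, jK_alg, halg3]
    intro hal
    have h1 : IsAlgebraic (Po 3 k) (x4 k 0) :=
      (IsFractionRing.isAlgebraic_iff (Po 3 k) (K3 k) (L4 k)).2 hal
    obtain ⟨P, hP0, hPs⟩ := h1
    have h2 := sg_fin k P
    have h3 : P.eval₂ (jj k).toRingHom (x4 k 0) = Polynomial.aeval (x4 k 0) P := rfl
    rw [h3, hPs] at h2
    have h4 : (finSuccEquiv k 3).symm P = 0 :=
      (injective_iff_map_eq_zero (sg k)).1 (sg_inj k) _ h2
    apply hP0
    rw [← (finSuccEquiv k 3).apply_symm_apply P, h4, map_zero]
  -- generation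
  have hgen : IntermediateField.adjoin (K3 k) {x4 k 0} = ⊤ := by
    rw [eq_top_iff]
    intro x _
    have hs : x4 k 0 ∈ IntermediateField.adjoin (K3 k) {x4 k 0} :=
      IntermediateField.subset_adjoin _ _ rfl
    have hall : ∀ q : Po 4 k, algebraMap (Po 4 k) (L4 k) q ∈
        IntermediateField.adjoin (K3 k) {x4 k 0} := by
      intro q
      induction q using MvPolynomial.induction_on with
      | C a =>
        have h1 : algebraMap (Po 4 k) (L4 k) (C a) = algebraMap (K3 k) (L4 k)
            (algebraMap k (K3 k) a) := by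
          rw [← IsScalarTower.algebraMap_apply k (K3 k) (L4 k)]
          exact (IsScalarTower.algebraMap_apply k (Po 4 k) (L4 k) a).symm
        rw [h1]
        exact IntermediateField.algebraMap_mem _ _
      | add p q hp hq => rw [map_add]; exact add_mem hp hq
      | mul_X p i hp =>
        rw [map_mul]
        refine mul_mem hp ?_
        refine Fin.cases hs (fun j => ?_) i
        have h1 : algebraMap (Po 4 k) (L4 k) (X j.succ) = x4 k 0 * algebraMap (K3 k) (L4 k)
            (xx k j) := by
          rw [halg, xx, jK_alg, jj, aeval_X, mul_div_cancel₀ _ (x4_ne k 0)]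
          rfl
        rw [h1]
        exact mul_mem hs (IntermediateField.algebraMap_mem _ _)
    obtain ⟨a, b, hb, rfl⟩ := IsFractionRing.div_surjective (A := Po 4 k) x
    exact div_mem (hall a) (hall b)
  -- compatibility
  have hcomp : ∀ x, τL (algebraMap (K3 k) (L4 k) x) = algebraMap (K3 k) (L4 k) (τ x) := by
    have h1 : (τL.comp (jK k)).toRingHom = ((jK k).comp τ).toRingHom := by
      apply IsLocalization.ringHom_ext (nonZeroDivisors (Po 3 k))
      have h2 : ((τL.comp (jK k)).comp (IsScalarTower.toAlgHom k (Po 3 k) (K3 k))) =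
          (((jK k).comp τ).comp (IsScalarTower.toAlgHom k (Po 3 k) (K3 k))) := by
        apply MvPolynomial.algHom_ext
        intro i
        have h3 : τ (algebraMap (Po 3 k) (K3 k) (X i)) = qt (F i.succ) (F 0) := by
          have := hph i
          exact this
        have h4 : τL (jK k (algebraMap (Po 3 k) (K3 k) (X i))) =
            jK k (τ (algebraMap (Po 3 k) (K3 k) (X i))) := by
          rw [h3, jK_alg, jj, aeval_X, map_div₀, qt, map_div₀, jK_alg, jK_alg]
          unfold x4
          rw [hτLa, hτLa, aeval_X, aeval_X, alg_form (F i.succ) d (hF _),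
            alg_form (F 0) d (hF _)]
          have h5 : x4 k 0 ^ d ≠ 0 := pow_ne_zero _ (x4_ne k 0)
          rw [mul_div_mul_left _ _ h5]
        exact h4
      have h6 := congrArg (fun f : Po 3 k →ₐ[k] L4 k => (f : Po 3 k →+* L4 k)) h2
      exact h6
    intro x
    have := congrArg (fun f : K3 k →+* L4 k => f x) h1
    exact this
  have hs : τL (x4 k 0) = x4 k 0 ^ d * algebraMap (K3 k) (L4 k)
      (algebraMap (Po 3 k) (K3 k) (dh (F 0))) := by
    rw [halg, jK_alg, ← alg_form (F 0) d (hF 0)]
    unfold x4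
    rw [hτLa, aeval_X]
  have hw : algebraMap (Po 3 k) (K3 k) (dh (F 0)) ≠ 0 := by
    intro h
    apply hdh0
    rw [← jK_alg, h, map_zero]
  -- the degree of `τL`
  have hr : ∀ q : Po 4 k, algebraMap (Po 4 k) (L4 k) (aeval F q) ∈ τL.fieldRange := fun q =>
    ⟨algebraMap (Po 4 k) (L4 k) q, hτLa q⟩
  set ρ : Po 4 k →+* τL.fieldRange :=
    (((algebraMap (Po 4 k) (L4 k)).comp (aeval F : Po 4 k →ₐ[k] Po 4 k).toRingHom).codRestrict
      τL.fieldRange.toSubring hr : Po 4 k →+* τL.fieldRange.toSubring) with hρ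
  have hρv : ∀ q, ((ρ q : τL.fieldRange) : L4 k) = algebraMap (Po 4 k) (L4 k) (aeval F q) :=
    fun q => rfl
  set t : L4 k := algebraMap (Po 4 k) (L4 k) θ with ht
  have hev : ∀ Q : Polynomial (Po 4 k), Polynomial.aeval t (Q.map ρ) =
      algebraMap (Po 4 k) (L4 k) (ev2 F θ Q) := by
    intro Q
    rw [Polynomial.aeval_def, Polynomial.eval₂_map, ev2, ht, Polynomial.hom_eval₂]
    rfl
  have hroot : Polynomial.aeval t (Φ.map ρ) = 0 := by
    rw [hev, hP.root, map_zero]
  have hmon : (Φ.map ρ).Monic := hP.monic.map ρ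
  have hint : IsIntegral τL.fieldRange t := ⟨Φ.map ρ, hmon, by
    rw [← Polynomial.aeval_def]; exact hroot⟩
  have htop : IntermediateField.adjoin τL.fieldRange {t} = ⊤ := by
    rw [eq_top_iff]
    intro x _
    have hmemt : t ∈ IntermediateField.adjoin τL.fieldRange {t} :=
      IntermediateField.subset_adjoin _ _ rfl
    have hpoly : ∀ Q : Polynomial τL.fieldRange, Polynomial.aeval t Q ∈
        IntermediateField.adjoin τL.fieldRange {t} := by
      intro Q
      have h1 := (Polynomial.aeval (⟨t, hmemt⟩ : IntermediateField.adjoin τL.fieldRange {t}) Q).2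
      have h2 : ((Polynomial.aeval (⟨t, hmemt⟩ : IntermediateField.adjoin τL.fieldRange {t}) Q :
          IntermediateField.adjoin τL.fieldRange {t}) : L4 k) = Polynomial.aeval t Q := by
        have h3 := Polynomial.aeval_algHom_apply
          (IntermediateField.adjoin τL.fieldRange {t}).val
          (⟨t, hmemt⟩ : IntermediateField.adjoin τL.fieldRange {t}) Q
        exact h3.symm
      rw [← h2]
      exact h1
    have hall : ∀ q : Po 4 k, algebraMap (Po 4 k) (L4 k) q ∈
        IntermediateField.adjoin τL.fieldRange {t} := by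
      intro q
      induction q using MvPolynomial.induction_on with
      | C a =>
        have h1 : algebraMap (Po 4 k) (L4 k) (C a) =
            algebraMap τL.fieldRange (L4 k) (algebraMap k τL.fieldRange a) := by
          rw [← IsScalarTower.algebraMap_apply k τL.fieldRange (L4 k)]
          exact (IsScalarTower.algebraMap_apply k (Po 4 k) (L4 k) a).symm
        rw [h1]
        exact IntermediateField.algebraMap_mem _ _
      | add p q hp hq => rw [map_add]; exact add_mem hp hq
      | mul_X p i hp =>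
        rw [map_mul]
        refine mul_mem hp ?_
        have h1 := congrArg (algebraMap (Po 4 k) (L4 k)) (hP.coord i)
        rw [map_mul, ← hev] at h1
        have h2 : algebraMap (Po 4 k) (L4 k) (aeval F Δ) ≠ 0 := by
          rw [Ne, map_eq_zero_iff _ (IsFractionRing.injective (Po 4 k) (L4 k)),
            map_eq_zero_iff _ hinj]
          exact hP.ne
        have h3 : algebraMap (Po 4 k) (L4 k) (X i) = Polynomial.aeval t ((R i).map ρ) /
            algebraMap (Po 4 k) (L4 k) (aeval F Δ) := by
          rw [eq_div_iff h2, ← h1, mul_comm]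
        rw [h3]
        refine div_mem (hpoly _) ?_
        have h4 : algebraMap (Po 4 k) (L4 k) (aeval F Δ) =
            algebraMap τL.fieldRange (L4 k) (ρ Δ) := rfl
        rw [h4]
        exact IntermediateField.algebraMap_mem _ _
    obtain ⟨a, b, hb, rfl⟩ := IsFractionRing.div_surjective (A := Po 4 k) x
    exact div_mem (hall a) (hall b)
  haveI hfd1 : FiniteDimensional τL.fieldRange (IntermediateField.adjoin τL.fieldRange {t}) :=
    IntermediateField.adjoin.finiteDimensional hint
  have hfr : Module.finrank τL.fieldRange (L4 k) ≤ Φ.natDegree := by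
    have h1 : Module.finrank τL.fieldRange (IntermediateField.adjoin τL.fieldRange {t}) =
        (minpoly τL.fieldRange t).natDegree := IntermediateField.adjoin.finrank hint
    rw [htop, IntermediateField.finrank_top'] at h1
    rw [h1]
    calc (minpoly τL.fieldRange t).natDegree ≤ (Φ.map ρ).natDegree :=
          Polynomial.natDegree_le_natDegree (minpoly.min _ _ hmon hroot)
      _ ≤ Φ.natDegree := Polynomial.natDegree_map_le
  have hfd : FiniteDimensional τL.fieldRange (L4 k) := by
    rw [htop] at hfd1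
    exact IntermediateField.topEquiv.toLinearEquiv.finiteDimensional
  obtain ⟨-, hfin⟩ := hSL1 k (K3 k) (L4 k) τ τL (x4 k 0)
    (algebraMap (Po 3 k) (K3 k) (dh (F 0))) d hd htr hgen hw hcomp hs hfd
  have h9 : d * Module.finrank τ.fieldRange (K3 k) ≤ d * e := (hfin.trans hfr).trans hdeg
  exact Nat.le_of_mul_le_mul_left h9 hd

end Pool.Agent.H72.TD
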